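import Pool.Agent.TH903.Semi.Upper

set_option autoImplicit false

namespace Pool.Agent.TH903.Semi

open Finset

section
variable {L : Type*} [Lattice L] [Finite L] [IsUpperModularLattice L]

omit [Finite L] [IsUpperModularLattice L] in
lemma half_of_lt (f : L) [Fintype L] [DecidableLE L]
    (h : (univ.filter (fun x => f ≤ x)).card < (univ.filter (fun x => ¬ f ≤ x)).card) :
    2 * Nat.card {x : L // f ≤ x} < Nat.card L := by
  have h1 : Nat.card {x : L // f ≤ x} = (univ.filter (fun x => f ≤ x)).card := by
    rw [Nat.card_eq_fintype_card, Fintype.card_subtype]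
  have h2 : Nat.card L = (univ.filter (fun x : L => f ≤ x)).card + (univ.filter (fun x => ¬ f ≤ x)).card := by
    rw [Nat.card_eq_fintype_card, ← Finset.card_univ, Finset.card_filter_add_card_filter_not]
  omega

/-- two incomparable exceptional elements -/
lemma double_strict {c f₁ f₂ : L} (h1c : ¬ f₁ ≤ c) (h2c : ¬ f₂ ≤ c)
    (h12 : ¬ f₁ ≤ f₂) (h21 : ¬ f₂ ≤ f₁)
    (hc : ∀ g, SupIrred g → g ≠ f₁ → g ≠ f₂ → (¬ g ≤ f₁ ∨ ¬ g ≤ f₂) → ∀ w, w < g → w ≤ c)
    {u v : L} (hu : u < f₁) (hv : v < f₁) (huv : u ≠ v) :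
    2 * Nat.card {x : L // f₁ ≤ x} < Nat.card L ∨ 2 * Nat.card {x : L // f₂ ≤ x} < Nat.card L := by
  classical
  have := Fintype.ofFinite L
  have hsum : ∀ f : L, (univ.filter (fun x => ¬ f ≤ x)).card =
      ∑ y, ((univ.filter (fun x => ¬ f ≤ x)).filter (fun x => x ⊔ f = y)).card := fun f =>
    card_eq_sum_card_fiberwise (fun x _ => by simp)
  have hsum2 : ∀ f : L, (univ.filter (fun y => f ≤ y)).card = ∑ y, if f ≤ y then 1 else 0 := fun f =>
    card_filter _ _
  have hpt : ∀ y : L, (if f₁ ≤ y then 1 else 0) + (if f₂ ≤ y then 1 else 0) ≤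
      ((univ.filter (fun x => ¬ f₁ ≤ x)).filter (fun x => x ⊔ f₁ = y)).card +
      ((univ.filter (fun x => ¬ f₂ ≤ x)).filter (fun x => x ⊔ f₂ = y)).card := by
    intro y
    have hs1 : f₁ ≤ y → ¬ f₂ ≤ y → ∃ x, ¬ f₁ ≤ x ∧ x ⊔ f₁ = y := by
      intro hy1 hy2
      obtain ⟨x, -, hx1, -, hx2⟩ := core (t := y ⊓ c) (y := y) (f := f₁) inf_le_left hy1
        (fun h => h1c (h.trans inf_le_right)) (by
        intro z hDz h1z hzy
        obtain ⟨q, hq, hqy, hqz, -⟩ := exists_irred (not_le_of_gt hzy)
        exact ⟨q, hqy, hqz, fun w hw => le_inf (hw.le.trans hqy)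
          (hc q hq (fun h => hqz (h ▸ h1z)) (fun h => hy2 (h ▸ hqy))
            (Or.inl (fun h => hqz (h.trans h1z))) w hw)⟩)
      exact ⟨x, hx1, hx2⟩
    have hs2 : f₂ ≤ y → ¬ f₁ ≤ y → ∃ x, ¬ f₂ ≤ x ∧ x ⊔ f₂ = y := by
      intro hy2 hy1
      obtain ⟨x, -, hx1, -, hx2⟩ := core (t := y ⊓ c) (y := y) (f := f₂) inf_le_left hy2
        (fun h => h2c (h.trans inf_le_right)) (by
        intro z hDz h1z hzy
        obtain ⟨q, hq, hqy, hqz, -⟩ := exists_irred (not_le_of_gt hzy)
        exact ⟨q, hqy, hqz, fun w hw => le_inf (hw.le.trans hqy)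
          (hc q hq (fun h => hy1 (h ▸ hqy)) (fun h => hqz (h ▸ h1z))
            (Or.inr (fun h => hqz (h.trans h1z))) w hw)⟩)
      exact ⟨x, hx1, hx2⟩
    by_cases hy1 : f₁ ≤ y
    · by_cases hy2 : f₂ ≤ y
      · rw [if_pos hy1, if_pos hy2]
        by_cases hn1 : ∃ x, ¬ f₁ ≤ x ∧ x ⊔ f₁ = y
        · by_cases hn2 : ∃ x, ¬ f₂ ≤ x ∧ x ⊔ f₂ = y
          · exact Nat.add_le_add (one_of_fibre hn1) (one_of_fibre hn2)
          · push Not at hn2
            have := two_of_fibre (two_fibre (c := c) h2c h1c h21 h12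
              (fun g hg a b d => hc g hg b a (Or.inr d)) hy2 hy1 hn2)
            omega
        · push Not at hn1
          have := two_of_fibre (two_fibre (c := c) h1c h2c h12 h21
            (fun g hg a b d => hc g hg a b (Or.inl d)) hy1 hy2 hn1)
          omega
      · rw [if_pos hy1, if_neg hy2]
        have := one_of_fibre (hs1 hy1 hy2)
        omega
    · by_cases hy2 : f₂ ≤ y
      · rw [if_neg hy1, if_pos hy2]
        have := one_of_fibre (hs2 hy2 hy1)
        omega
      · rw [if_neg hy1, if_neg hy2]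
        omega
  have hpt1 : (if f₁ ≤ f₁ then 1 else 0) + (if f₂ ≤ f₁ then 1 else 0) <
      ((univ.filter (fun x => ¬ f₁ ≤ x)).filter (fun x => x ⊔ f₁ = f₁)).card +
      ((univ.filter (fun x => ¬ f₂ ≤ x)).filter (fun x => x ⊔ f₂ = f₁)).card := by
    rw [if_pos le_rfl, if_neg h21]
    have := two_of_fibre (f := f₁) (y := f₁) ⟨u, v, huv,
      ⟨not_le_of_gt hu, sup_eq_right.mpr hu.le⟩, ⟨not_le_of_gt hv, sup_eq_right.mpr hv.le⟩⟩
    omega
  have htot : (univ.filter (fun y => f₁ ≤ y)).card + (univ.filter (fun y => f₂ ≤ y)).card <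
      (univ.filter (fun x => ¬ f₁ ≤ x)).card + (univ.filter (fun x => ¬ f₂ ≤ x)).card := by
    rw [hsum f₁, hsum f₂, hsum2 f₁, hsum2 f₂, ← sum_add_distrib, ← sum_add_distrib]
    exact sum_lt_sum (fun y _ => hpt y) ⟨f₁, mem_univ _, hpt1⟩
  rcases lt_or_ge (univ.filter (fun y => f₁ ≤ y)).card (univ.filter (fun x => ¬ f₁ ≤ x)).card with h | h
  · exact Or.inl (half_of_lt f₁ h)
  · exact Or.inr (half_of_lt f₂ (by omega))

end

/-- exceptional join-irreducible elements -/
def Exc (L : Type*) [Lattice L] [BoundedOrder L] : Set L :=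
  {f : L | SupIrred f ∧ ∃ c x : L, IsCoatom c ∧ x < f ∧ ¬ x ≤ c}

lemma exc_card {L : Type*} [Lattice L] [BoundedOrder L] [Finite L] [IsUpperModularLattice L] {m f : L}
    (hD : Decomp m f) : (Exc (Set.Iic m)).ncard ≤ (Exc L).ncard := by
  apply Set.ncard_le_ncard_of_injOn Subtype.val
  · rintro a ⟨ha, c, x, hc, hx, hxc⟩
    refine ⟨supIrred_val ha, (c : L) ⊔ f, x, ?_, hx, ?_⟩
    · have hcm : (c : L) ≤ m := c.2
      refine ⟨?_, ?_⟩
      · intro h
        apply hc.1
        apply Subtype.ext
        change (c : L) = m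
        have := hD.down c hcm
        rw [h, top_inf_eq] at this
        exact this.symm
      · intro z hz
        have hfz : f ≤ z := le_sup_right.trans hz.le
        have hzm : (c : L) ≤ z ⊓ m := le_inf (le_sup_left.trans hz.le) hcm
        have hne : (c : L) ≠ z ⊓ m := by
          intro h
          have := hD.up z hfz
          rw [← h] at this
          exact hz.ne this
        have h1 : (⟨z ⊓ m, inf_le_right⟩ : Set.Iic m) = ⊤ :=
          hc.2 _ (lt_of_le_of_ne hzm (fun h => hne (congrArg Subtype.val h)))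
        have h2 : z ⊓ m = m := congrArg Subtype.val h1
        have h3 := hD.up z hfz
        rw [h2] at h3
        rw [← h3]
        by_contra hcon
        have h4 : ¬ (⊤ : L) ≤ m ⊔ f := fun h => hcon (top_le_iff.mp h)
        have h5 := hD.up ⊤ le_top
        rw [top_inf_eq] at h5
        exact hcon h5
    · intro h
      apply hxc
      change (x : L) ≤ c
      have h1 : (x : L) ≤ ((c : L) ⊔ f) ⊓ m := le_inf h x.2
      rwa [hD.down c c.2] at h1
  · exact Subtype.val_injective.injOn

theorem strict_upper_aux (n : ℕ) : ∀ (L : Type) [Lattice L] [BoundedOrder L] [Finite L]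
    [IsUpperModularLattice L], Nat.card L = n → (Exc L).ncard ≤ 6 → StrictJ L := by
  induction n using Nat.strong_induction_on with
  | _ n ih =>
    intro L _ _ _ _ hn h6
    classical
    have := Fintype.ofFinite L
    by_cases hbt : (⊥ : L) = ⊤
    · exact Or.inr (boolLike_of_subsingleton L hbt)
    have hbt' : (⊥ : L) ≠ ⊤ := hbt
    have hnt : Nontrivial L := ⟨⊥, ⊤, hbt⟩
    by_cases hcon : ∃ j : L, SupIrred j ∧ 2 * Nat.card {x : L // j ≤ x} < Nat.card L
    · exact Or.inl hcon
    push Not at hcon
    set N : Finset L := univ.filter (fun f => SupIrred f ∧ ∃ c x : L, IsCoatom c ∧ x < f ∧ ¬ x ≤ c) with hN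
    have hN6 : N.card ≤ 6 := by
      rw [← Set.ncard_coe_finset]
      simpa [hN, Exc] using h6
    set F : L → Finset L := fun c => univ.filter (fun f => SupIrred f ∧ ∃ x, x < f ∧ ¬ x ≤ c) with hF
    have hFN : ∀ c, IsCoatom c → F c ⊆ N := by
      intro c hc f hf
      simp only [hF, hN, mem_filter, mem_univ, true_and] at hf ⊢
      obtain ⟨h1, x, h3, h4⟩ := hf
      exact ⟨h1, c, x, hc, h3, h4⟩
    have hbotne : ∀ f : L, SupIrred f → f ≠ ⊥ := fun f hf h => hf.1 (h ▸ isMin_bot)
    -- a heavy element satisfying the one-exception hypothesis is an atom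
    have hsingle : ∀ c f : L, SupIrred f → ¬ f ≤ c → (∀ g, SupIrred g → ¬ g ≤ f → ∀ w, w < g → w ≤ c) →
        (∀ w, w < f → w = ⊥) ∧ ∃ m, Decomp m f := fun c f hf hfc hc =>
      decomp_of_heavy (hbotne f hf) (surj_single hfc hc) (hcon f hf)
    by_cases hex : ∃ c, IsCoatom c ∧ (F c).card ≤ 2
    · obtain ⟨c, hc, hc2⟩ := hex
      have hmemF : ∀ f, f ∈ F c ↔ SupIrred f ∧ ∃ x, x < f ∧ ¬ x ≤ c := by
        intro f
        simp only [hF, mem_filter, mem_univ, true_and]
      have hnotF : ∀ g, SupIrred g → g ∉ F c → ∀ w, w < g → w ≤ c := by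
        intro g hg hgF w hw
        by_contra hwc
        exact hgF ((hmemF g).mpr ⟨hg, w, hw, hwc⟩)
      have hFc : ∀ f ∈ F c, ¬ f ≤ c := by
        intro f hf hfc
        obtain ⟨-, x, hx, hxc⟩ := (hmemF f).mp hf
        exact hxc (hx.le.trans hfc)
      -- an element of `F c` is not an atom
      have hFna : ∀ f ∈ F c, ¬ (∀ w, w < f → w = ⊥) := by
        intro f hf hall
        obtain ⟨-, x, hx, hxc⟩ := (hmemF f).mp hf
        exact hxc ((hall x hx) ▸ bot_le)
      rcases Nat.lt_or_ge (F c).card 1 with h0 | h1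
      · have hemp : ∀ g, g ∉ F c := by
          intro g hg
          have := card_pos.mpr ⟨g, hg⟩
          omega
        have htop : ¬ (⊤ : L) ≤ c := fun h => hc.1 (top_le_iff.mp h)
        obtain ⟨f, hf, -, hfc, -⟩ := exists_irred htop
        obtain ⟨-, m, hD⟩ := hsingle c f hf hfc (fun g hg _ => hnotF g hg (hemp g))
        have hlt : Nat.card (Set.Iic m) < n := by
          have := hD.card
          have hpos : 0 < Nat.card (Set.Iic m) := Nat.card_pos
          omega
        exact hD.strict (ih _ hlt (Set.Iic m) rfl ((exc_card hD).trans h6))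
      · exfalso
        rcases Nat.lt_or_ge (F c).card 2 with h1' | h2'
        · obtain ⟨f, hf⟩ := card_eq_one.mp (show (F c).card = 1 by omega)
          have hfF : f ∈ F c := by rw [hf]; exact mem_singleton_self f
          have hsi := ((hmemF f).mp hfF).1
          refine hFna f hfF (hsingle c f hsi (hFc f hfF) ?_).1
          intro g hg hgf
          refine hnotF g hg (fun h => hgf ?_)
          rw [hf] at h
          exact (mem_singleton.mp h).le
        · obtain ⟨f₁, f₂, hne12, hf⟩ := card_eq_two.mp (show (F c).card = 2 by omega)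
          have m1 : f₁ ∈ F c := by rw [hf]; simp
          have m2 : f₂ ∈ F c := by rw [hf]; simp
          have s1 := ((hmemF f₁).mp m1).1
          have s2 := ((hmemF f₂).mp m2).1
          by_cases h12 : f₁ ≤ f₂
          · refine hFna f₂ m2 (hsingle c f₂ s2 (hFc f₂ m2) ?_).1
            intro g hg hgf
            refine hnotF g hg (fun h => ?_)
            rw [hf] at h
            rcases mem_insert.mp h with h | h
            · exact hgf (h ▸ h12)
            · exact hgf (mem_singleton.mp h).le
          · by_cases h21 : f₂ ≤ f₁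
            · refine hFna f₁ m1 (hsingle c f₁ s1 (hFc f₁ m1) ?_).1
              intro g hg hgf
              refine hnotF g hg (fun h => ?_)
              rw [hf] at h
              rcases mem_insert.mp h with h | h
              · exact hgf h.le
              · exact hgf ((mem_singleton.mp h).symm ▸ h21)
            · obtain ⟨-, x, hx, hxc⟩ := (hmemF f₁).mp m1
              have hx0 : (⊥ : L) ≠ x := fun h => hxc (h ▸ bot_le)
              have hb1 : (⊥ : L) < f₁ := lt_of_le_of_lt bot_le hx
              rcases double_strict (c := c) (hFc f₁ m1) (hFc f₂ m2) h12 h21 (fun g hg a b _ =>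
                hnotF g hg (by rw [hf]; simp [a, b])) hb1 hx hx0 with h | h
              · exact absurd h (not_lt_of_ge (hcon f₁ s1))
              · exact absurd h (not_lt_of_ge (hcon f₂ s2))
    · exfalso
      push Not at hex
      have hheavy : ∀ f ∈ N, Fintype.card L ≤ 2 * (univ.filter (fun x => f ≤ x)).card := by
        intro f hf
        have h1 := hcon f (by simp only [hN, mem_filter, mem_univ, true_and] at hf; exact hf.1)
        rw [Nat.card_eq_fintype_card, Nat.card_eq_fintype_card, Fintype.card_subtype] at h1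
        exact h1
      have hswap : ∑ f ∈ N, (univ.filter (fun x => f ≤ x)).card = ∑ y : L, (N.filter (fun f => f ≤ y)).card := by
        simp only [card_filter]
        exact sum_comm
      have hbot : (N.filter (fun f => f ≤ (⊥ : L))).card = 0 := by
        rw [card_eq_zero, filter_eq_empty_iff]
        intro f hf hle
        simp only [hN, mem_filter, mem_univ, true_and] at hf
        exact hbotne f hf.1 (le_bot_iff.mp hle)
      have htopc : (N.filter (fun f => f ≤ (⊤ : L))).card ≤ N.card := card_filter_le _ _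
      have hmid : ∀ y : L, y ≠ ⊤ → (N.filter (fun f => f ≤ y)).card + 3 ≤ N.card := by
        intro y hy
        obtain ⟨c, hc, hyc⟩ := (eq_top_or_exists_le_coatom y).resolve_left hy
        have h3 := hex c hc
        have hdisj : Disjoint (N.filter (fun f => f ≤ y)) (F c) := by
          rw [disjoint_left]
          intro f hf1 hf2
          simp only [hF, mem_filter, mem_univ, true_and] at hf2
          obtain ⟨-, x, hx, hxc⟩ := hf2
          exact hxc (hx.le.trans ((mem_filter.mp hf1).2.trans hyc))
        have hsub : N.filter (fun f => f ≤ y) ∪ F c ⊆ N := union_subset (filter_subset _ _) (hFN c hc)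
        have := card_le_card hsub
        rw [card_union_of_disjoint hdisj] at this
        omega
      -- an element of `N` is not an atom; pick an atom below something
      have h3N : 3 ≤ N.card := by
        have := hmid ⊥ hbt'
        omega
      obtain ⟨g, hg⟩ : N.Nonempty := card_pos.mp (by omega)
      have hgN := hg
      simp only [hN, mem_filter, mem_univ, true_and] at hgN
      obtain ⟨hgs, c₀, x₀, hc₀, hx₀, hxc₀⟩ := hgN
      have hx0 : x₀ ≠ ⊥ := fun h => hxc₀ (h ▸ bot_le)
      obtain ⟨a, ha, hax⟩ := (eq_bot_or_exists_atom_le x₀).resolve_left hx0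
      have hatop : a ≠ ⊤ := fun h => absurd (h ▸ (hax.trans_lt hx₀)) not_top_lt
      -- nothing in `N` is below the atom `a`
      have haN : (N.filter (fun f => f ≤ a)).card = 0 := by
        rw [card_eq_zero, filter_eq_empty_iff]
        intro f hf hle
        simp only [hN, mem_filter, mem_univ, true_and] at hf
        obtain ⟨hfs, c, x, -, hxf, hxc⟩ := hf
        rcases ha.le_iff.mp hle with h | h
        · exact hbotne f hfs h
        · subst h
          exact hxc ((ha.2 x hxf) ▸ bot_le)
      have hsum : ∑ y : L, (N.filter (fun f => f ≤ y)).card ≤ N.card + (Fintype.card L - 3) * (N.card - 3) := by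
        have hab : a ∈ (univ.erase (⊤ : L)).erase ⊥ := mem_erase.mpr ⟨ha.1, mem_erase.mpr ⟨hatop, mem_univ _⟩⟩
        rw [← Finset.add_sum_erase univ _ (mem_univ (⊤ : L)),
          ← Finset.add_sum_erase (univ.erase ⊤) _ (mem_erase.mpr ⟨hbt', mem_univ (⊥ : L)⟩), hbot,
          ← Finset.add_sum_erase _ _ hab, haN]
        have hcard : (((univ.erase (⊤ : L)).erase ⊥).erase a).card = Fintype.card L - 3 := by
          rw [card_erase_of_mem hab, card_erase_of_mem (mem_erase.mpr ⟨hbt', mem_univ (⊥ : L)⟩),
            card_erase_of_mem (mem_univ _), card_univ]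
          omega
        have h1 : ∑ y ∈ ((univ.erase (⊤ : L)).erase ⊥).erase a, (N.filter (fun f => f ≤ y)).card ≤
            (((univ.erase (⊤ : L)).erase ⊥).erase a).card • (N.card - 3) := by
          apply sum_le_card_nsmul
          intro y hy
          have := hmid y (mem_erase.mp (mem_erase.mp (mem_erase.mp hy).2).2).1
          omega
        rw [hcard, smul_eq_mul] at h1
        omega
      have hlow : N.card * Fintype.card L ≤ 2 * ∑ f ∈ N, (univ.filter (fun x => f ≤ x)).card := by
        rw [mul_sum, ← smul_eq_mul]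
        exact card_nsmul_le_sum _ _ _ hheavy
      rw [hswap] at hlow
      have hcard3 : 3 ≤ Fintype.card L := by
        have : ({⊤, ⊥, a} : Finset L).card ≤ Fintype.card L := card_le_univ _
        rwa [card_eq_three.mpr ⟨⊤, ⊥, a, hbt'.symm, hatop.symm, ha.1.symm, rfl⟩] at this
      generalize hSdef : ∑ y : L, (N.filter (fun f => f ≤ y)).card = S at hsum hlow
      generalize hk : N.card = k at *
      obtain ⟨r, hr⟩ : ∃ r, Fintype.card L = r + 3 := ⟨Fintype.card L - 3, by omega⟩
      rw [hr] at hsum hlow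
      simp only [Nat.add_sub_cancel] at hsum
      interval_cases k <;> omega

theorem strict_upper (L : Type) [Lattice L] [BoundedOrder L] [Finite L]
    [IsUpperModularLattice L] (h6 : (Exc L).ncard ≤ 6) : StrictJ L := strict_upper_aux _ L rfl h6

end Pool.Agent.TH903.Semi
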