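import Pool.Agent.TH903.Semi.StrictSix

set_option autoImplicit false

namespace Pool.Agent.TH903.Semi

open Finset

/-- The strict form of the two-exception criterion at an element `c` of a finite upper semimodular
lattice: equality is only possible if every join-irreducible element not below `c` splits off as a
direct factor. -/
theorem strict_at {L : Type*} [Lattice L] [BoundedOrder L] [Finite L] [IsUpperModularLattice L]
    (c : L) (h2 : {f : L | SupIrred f ∧ ∃ x : L, x < f ∧ ¬ x ≤ c}.ncard ≤ 2)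
    (f₀ : L) (hf₀ : SupIrred f₀) (hf₀c : ¬ f₀ ≤ c) (hnf : ¬ ∃ m, Decomp m f₀) :
    ∃ j : L, SupIrred j ∧ 2 * Nat.card {x : L // j ≤ x} < Nat.card L := by
  classical
  have := Fintype.ofFinite L
  by_contra hcon
  push Not at hcon
  have hbotne : ∀ f : L, SupIrred f → f ≠ ⊥ := fun f hf h => hf.1 (h ▸ isMin_bot)
  have hsingle : ∀ f : L, SupIrred f → ¬ f ≤ c → (∀ g, SupIrred g → ¬ g ≤ f → ∀ w, w < g → w ≤ c) →
      (∀ w, w < f → w = ⊥) ∧ ∃ m, Decomp m f := fun f hf hfc hc =>
    decomp_of_heavy (hbotne f hf) (surj_single hfc hc) (hcon f hf)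
  set F : Finset L := univ.filter (fun f => SupIrred f ∧ ∃ x, x < f ∧ ¬ x ≤ c) with hF
  have hF2 : F.card ≤ 2 := by
    rw [← Set.ncard_coe_finset]
    simpa [hF] using h2
  have hmemF : ∀ f, f ∈ F ↔ SupIrred f ∧ ∃ x, x < f ∧ ¬ x ≤ c := by
    intro f
    simp only [hF, mem_filter, mem_univ, true_and]
  have hnotF : ∀ g, SupIrred g → g ∉ F → ∀ w, w < g → w ≤ c := by
    intro g hg hgF w hw
    by_contra hwc
    exact hgF ((hmemF g).mpr ⟨hg, w, hw, hwc⟩)
  have hFc : ∀ f ∈ F, ¬ f ≤ c := by
    intro f hf hfc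
    obtain ⟨-, x, hx, hxc⟩ := (hmemF f).mp hf
    exact hxc (hx.le.trans hfc)
  -- an element of `F` is not an atom
  have hFna : ∀ f ∈ F, ¬ (∀ w, w < f → w = ⊥) := by
    intro f hf hall
    obtain ⟨-, x, hx, hxc⟩ := (hmemF f).mp hf
    exact hxc ((hall x hx) ▸ bot_le)
  rcases Nat.lt_or_ge F.card 1 with h0 | h1
  · have hemp : ∀ g, g ∉ F := by
      intro g hg
      have := card_pos.mpr ⟨g, hg⟩
      omega
    exact hnf (hsingle f₀ hf₀ hf₀c (fun g hg _ => hnotF g hg (hemp g))).2
  · rcases Nat.lt_or_ge F.card 2 with h1' | h2'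
    · obtain ⟨f, hf⟩ := card_eq_one.mp (show F.card = 1 by omega)
      have hfF : f ∈ F := by rw [hf]; exact mem_singleton_self f
      have hsi := ((hmemF f).mp hfF).1
      refine hFna f hfF (hsingle f hsi (hFc f hfF) ?_).1
      intro g hg hgf
      refine hnotF g hg (fun h => hgf ?_)
      rw [hf] at h
      exact (mem_singleton.mp h).le
    · obtain ⟨f₁, f₂, hne12, hf⟩ := card_eq_two.mp (show F.card = 2 by omega)
      have m1 : f₁ ∈ F := by rw [hf]; simp
      have m2 : f₂ ∈ F := by rw [hf]; simp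
      have s1 := ((hmemF f₁).mp m1).1
      have s2 := ((hmemF f₂).mp m2).1
      by_cases h12 : f₁ ≤ f₂
      · refine hFna f₂ m2 (hsingle f₂ s2 (hFc f₂ m2) ?_).1
        intro g hg hgf
        refine hnotF g hg (fun h => ?_)
        rw [hf] at h
        rcases mem_insert.mp h with h | h
        · exact hgf (h ▸ h12)
        · exact hgf (mem_singleton.mp h).le
      · by_cases h21 : f₂ ≤ f₁
        · refine hFna f₁ m1 (hsingle f₁ s1 (hFc f₁ m1) ?_).1
          intro g hg hgf
          refine hnotF g hg (fun h => ?_)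
          rw [hf] at h
          rcases mem_insert.mp h with h | h
          · exact hgf h.le
          · exact hgf ((mem_singleton.mp h).symm ▸ h21)
        · obtain ⟨-, x, hx, hxc⟩ := (hmemF f₁).mp m1
          have hx0 : (⊥ : L) ≠ x := fun h => hxc (h ▸ bot_le)
          have hb1 : (⊥ : L) < f₁ := lt_of_le_of_lt bot_le hx
          rcases double_strict (c := c) (hFc f₁ m1) (hFc f₂ m2) h12 h21 (fun g hg a b _ =>
            hnotF g hg (by rw [hf]; simp [a, b])) hb1 hx hx0 with h | h
          · exact absurd h (not_lt_of_ge (hcon f₁ s1))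
          · exact absurd h (not_lt_of_ge (hcon f₂ s2))

end Pool.Agent.TH903.Semi
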