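import Pool.Agent.TH903.Semi.Strict

set_option autoImplicit false

namespace Pool.Agent.TH903.Semi

open Finset

lemma covBy_val {L : Type*} [Lattice L] {m : L} {a b : Set.Iic m} : a ⋖ b ↔ (a : L) ⋖ (b : L) := by
  constructor
  · intro h
    refine ⟨h.1, fun c hac hcb => ?_⟩
    exact h.2 (c := ⟨c, hcb.le.trans b.2⟩) hac hcb
  · intro h
    exact ⟨h.1, fun c hac hcb => h.2 hac hcb⟩

instance lowerIic {L : Type*} [Lattice L] [IsLowerModularLattice L] (m : L) :
    IsLowerModularLattice (Set.Iic m) where
  inf_covBy_of_covBy_sup := by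
    intro a b h
    rw [covBy_val] at h ⊢
    exact IsLowerModularLattice.inf_covBy_of_covBy_sup h

instance upperIic {L : Type*} [Lattice L] [IsUpperModularLattice L] (m : L) :
    IsUpperModularLattice (Set.Iic m) where
  covBy_sup_of_inf_covBy := by
    intro a b h
    rw [covBy_val] at h ⊢
    exact IsUpperModularLattice.covBy_sup_of_inf_covBy h

lemma boolLike_of_subsingleton (L : Type*) [Lattice L] [BoundedOrder L] [Finite L]
    (h : (⊥ : L) = ⊤) : BoolLike L := by
  have hsub : Subsingleton L := subsingleton_of_bot_eq_top h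
  refine ⟨0, ?_, ?_, ?_⟩
  · rw [Nat.card_of_subsingleton (⊥ : L), pow_zero]
  · rw [Set.ncard_eq_zero]
    ext a
    simp only [Set.mem_ofPred_eq, Set.mem_empty_iff_false, iff_false]
    intro ha
    exact ha.1 (Subsingleton.elim _ _)
  · intro a ha
    exact absurd (Subsingleton.elim _ _) ha

theorem strict_lower_aux (n : ℕ) : ∀ (L : Type) [Lattice L] [BoundedOrder L] [Finite L]
    [IsLowerModularLattice L], Nat.card L = n → StrictJ L := by
  induction n using Nat.strong_induction_on with
  | _ n ih =>
    intro L _ _ _ _ hn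
    classical
    have := Fintype.ofFinite L
    by_cases hbt : (⊥ : L) = ⊤
    · exact Or.inr (boolLike_of_subsingleton L hbt)
    by_cases hcon : ∃ j : L, SupIrred j ∧ 2 * Nat.card {x : L // j ≤ x} < Nat.card L
    · exact Or.inl hcon
    push Not at hcon
    obtain ⟨m, hm, -⟩ := (eq_top_or_exists_le_coatom (⊥ : L)).resolve_left hbt
    have htop : ¬ (⊤ : L) ≤ m := fun h => hm.1 (top_le_iff.mp h)
    obtain ⟨j, hj, -, hjm, hjl⟩ := exists_irred htop
    have key : ∀ x, j ≤ x → (x ⊓ m) ⊔ j = x := by
      intro x hx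
      have h1 : m ⊔ x = ⊤ := by
        rcases hm.le_iff.mp (le_sup_left : m ≤ m ⊔ x) with h | h
        · exact h
        · exact absurd (hx.trans (h ▸ le_sup_right)) hjm
      have h2 : m ⊓ x ⋖ x := inf_covBy_of_covBy_sup_left (h1 ▸ hm.covBy_top)
      rw [inf_comm] at h2
      have h3 : x ⊓ m ⊔ j ≤ x := sup_le inf_le_left hx
      rcases eq_or_lt_of_le h3 with h | h
      · exact h
      · exact absurd h (h2.2 (lt_of_le_of_ne le_sup_left
          (fun h' => hjm ((le_sup_right.trans h'.ge).trans inf_le_right))))
    have hmaps : ∀ x ∈ univ.filter (fun x : L => j ≤ x), x ⊓ m ∈ univ.filter (fun x : L => ¬ j ≤ x) := by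
      intro x _
      simp only [mem_filter, mem_univ, true_and]
      exact fun h => hjm (h.trans inf_le_right)
    have hinj : Set.InjOn (fun x : L => x ⊓ m) (univ.filter (fun x : L => j ≤ x) : Finset L) := by
      intro x hx y hy hxy
      simp only [coe_filter, mem_univ, true_and, Set.mem_ofPred_eq] at hx hy
      have hxy' : x ⊓ m = y ⊓ m := hxy
      rw [← key x hx, ← key y hy, hxy']
    have hcard : (univ.filter (fun x : L => ¬ j ≤ x)).card ≤ (univ.filter (fun x : L => j ≤ x)).card := by
      have h1 := hcon j hj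
      have h2 : Nat.card {x : L // j ≤ x} = (univ.filter (fun x => j ≤ x)).card := by
        rw [Nat.card_eq_fintype_card, Fintype.card_subtype]
      have h3 : Nat.card L = (univ.filter (fun x : L => j ≤ x)).card + (univ.filter (fun x => ¬ j ≤ x)).card := by
        rw [Nat.card_eq_fintype_card, ← Finset.card_univ, Finset.card_filter_add_card_filter_not]
      omega
    have hsurj := surj_on_of_inj_on_of_card_le (fun x (_ : x ∈ univ.filter (fun x : L => j ≤ x)) => x ⊓ m)
      hmaps (fun x y hx hy hxy => hinj hx hy hxy) hcard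
    have hD : Decomp m j := by
      have hcov : ∀ x, ¬ j ≤ x → ∃ y, j ≤ y ∧ x = y ⊓ m := by
        intro x hx
        obtain ⟨y, hy, hxy⟩ := hsurj x (by simp [hx])
        simp only [mem_filter, mem_univ, true_and] at hy
        exact ⟨y, hy, hxy⟩
      refine ⟨hjm, ?_, ?_, ?_⟩
      · intro x hx
        obtain ⟨y, -, rfl⟩ := hcov x hx
        exact inf_le_right
      · intro y hy
        obtain ⟨z, hz, rfl⟩ := hcov y (fun h => hjm (h.trans hy))
        rw [key z hz]
      · exact key
    have hlt : Nat.card (Set.Iic m) < n := by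
      have := hD.card
      have hpos : 0 < Nat.card (Set.Iic m) := Nat.card_pos
      omega
    exact hD.strict (ih _ hlt (Set.Iic m) rfl)

theorem strict_lower (L : Type) [Lattice L] [BoundedOrder L] [Finite L]
    [IsLowerModularLattice L] : StrictJ L := strict_lower_aux _ L rfl

end Pool.Agent.TH903.Semi
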