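import Mathlib

set_option autoImplicit false

namespace Pool.Agent.TH903.Semi

open Finset

variable {L : Type*} [Lattice L] [Finite L] [IsUpperModularLattice L]

omit [IsUpperModularLattice L] in
/-- minimal element of a nonempty set in a finite order -/
lemma exists_min {P : L → Prop} (h : ∃ x, P x) : ∃ x, P x ∧ ∀ y, y < x → ¬ P y := by
  obtain ⟨x, hx⟩ := h
  have hwf : WellFounded ((· < ·) : L → L → Prop) := wellFounded_lt
  refine ⟨hwf.min {x | P x} ⟨x, hx⟩, hwf.min_mem {x | P x} ⟨x, hx⟩, fun y hy hP => ?_⟩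
  exact hwf.not_lt_min {x | P x} hP hy

omit [IsUpperModularLattice L] in
lemma exists_max {P : L → Prop} (h : ∃ x, P x) : ∃ x, P x ∧ ∀ y, x < y → ¬ P y := by
  obtain ⟨x, hx⟩ := h
  have hwf : WellFounded ((· > ·) : L → L → Prop) := wellFounded_gt
  refine ⟨hwf.min {x | P x} ⟨x, hx⟩, hwf.min_mem {x | P x} ⟨x, hx⟩, fun y hy hP => ?_⟩
  exact hwf.not_lt_min {x | P x} hP hy

omit [IsUpperModularLattice L] in
/-- a minimal element of `{q ≤ y, q ≰ z}` is join-irreducible and everything below it is below `z` -/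
lemma exists_irred {y z : L} (h : ¬ y ≤ z) :
    ∃ q, SupIrred q ∧ q ≤ y ∧ ¬ q ≤ z ∧ ∀ w, w < q → w ≤ z := by
  obtain ⟨q, ⟨hqy, hqz⟩, hmin⟩ := exists_min (L := L) (P := fun q => q ≤ y ∧ ¬ q ≤ z) ⟨y, le_rfl, h⟩
  have hlow : ∀ w, w < q → w ≤ z := by
    intro w hw
    by_contra hc
    exact hmin w hw ⟨hw.le.trans hqy, hc⟩
  refine ⟨q, ⟨?_, ?_⟩, hqy, hqz, hlow⟩
  · intro hm
    apply hqz
    have := hm (b := q ⊓ z) inf_le_left
    exact this.trans inf_le_right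
  · intro a b hab
    by_contra hc
    push Not at hc
    have ha : a < q := lt_of_le_of_ne (hab ▸ le_sup_left) hc.1
    have hb : b < q := lt_of_le_of_ne (hab ▸ le_sup_right) hc.2
    exact hqz (hab ▸ sup_le (hlow a ha) (hlow b hb))

omit [Finite L] in
/-- if everything strictly below `q` is below `x` and `q ≰ x` then `x ⋖ x ⊔ q` -/
lemma covBy_sup {x q : L} (hlow : ∀ w, w < q → w ≤ x) (hq : ¬ q ≤ x) : x ⋖ x ⊔ q := by
  have h : q ⊓ x ⋖ q := by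
    refine ⟨lt_of_le_of_ne inf_le_left (fun h => hq (inf_eq_left.mp h)), ?_⟩
    intro w hw1 hw2
    have h1 : w ≤ x := hlow w hw2
    exact absurd (le_inf hw2.le h1) (not_le_of_gt hw1)
  have := covBy_sup_of_inf_covBy_left h
  rwa [sup_comm] at this

/-- The core lemma. -/
lemma core {t y f : L} (hty : t ≤ y) (hfy : f ≤ y) (hft : ¬ f ≤ t)
    (H : ∀ z, t ≤ z → f ≤ z → z < y → ∃ q, q ≤ y ∧ ¬ q ≤ z ∧ ∀ w, w < q → w ≤ t) :
    ∃ x, t ≤ x ∧ ¬ f ≤ x ∧ x ⋖ y ∧ x ⊔ f = y := by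
  obtain ⟨x, ⟨htx, hxy, hfx⟩, hmax⟩ := exists_max (L := L)
    (P := fun x => t ≤ x ∧ x ≤ y ∧ ¬ f ≤ x) ⟨t, le_rfl, hty, hft⟩
  -- any `q ≤ y`, `q ≰ x`, with everything below `q` below `x` satisfies `f ≤ x ⊔ q`
  have key : ∀ q, q ≤ y → ¬ q ≤ x → f ≤ x ⊔ q := by
    intro q hqy hqx
    by_contra hc
    refine hmax (x ⊔ q) (lt_of_le_of_ne le_sup_left (fun h => hqx ?_)) ⟨htx.trans le_sup_left, sup_le hxy hqy, hc⟩
    rw [h]; exact le_sup_right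
  obtain ⟨q, -, hqf, hqx, hql⟩ := exists_irred hfx
  have hcov := covBy_sup hql hqx
  have heq : x ⊔ q = x ⊔ f :=
    le_antisymm (sup_le_sup_left hqf x) (sup_le le_sup_left (key q (hqf.trans hfy) hqx))
  rw [heq] at hcov
  have hzy : x ⊔ f ≤ y := sup_le hxy hfy
  have hz : x ⊔ f = y := by
    by_contra hne
    obtain ⟨r, hry, hrz, hrl⟩ := H (x ⊔ f) (htx.trans le_sup_left) le_sup_right (lt_of_le_of_ne hzy hne)
    have hrx : ¬ r ≤ x := fun h => hrz (h.trans le_sup_left)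
    have hcov2 := covBy_sup (fun w hw => (hrl w hw).trans htx) hrx
    have h1 : x ⊔ f ≤ x ⊔ r := sup_le le_sup_left (key r hry hrx)
    rcases eq_or_lt_of_le h1 with h2 | h2
    · exact hrz (h2 ▸ le_sup_right)
    · exact hcov2.2 hcov.lt h2
  exact ⟨x, htx, hfx, hz ▸ hcov, hz⟩

/-- Two-element fibre lemma. -/
lemma two_fibre {c f₁ f₂ y : L} (h1c : ¬ f₁ ≤ c) (h2c : ¬ f₂ ≤ c)
    (h12 : ¬ f₁ ≤ f₂) (h21 : ¬ f₂ ≤ f₁)
    (hc : ∀ g, SupIrred g → g ≠ f₁ → g ≠ f₂ → ¬ g ≤ f₁ → ∀ w, w < g → w ≤ c)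
    (h1y : f₁ ≤ y) (h2y : f₂ ≤ y) (hno : ∀ x, ¬ f₁ ≤ x → x ⊔ f₁ ≠ y) :
    ∃ u v : L, u ≠ v ∧ (¬ f₂ ≤ u ∧ u ⊔ f₂ = y) ∧ (¬ f₂ ≤ v ∧ v ⊔ f₂ = y) := by
  -- `W` is the join of the join-irreducibles below `y` other than `f₁, f₂`
  obtain ⟨W, hW, hWmin⟩ := exists_min (L := L)
    (P := fun w => ∀ q, SupIrred q → q ≠ f₁ → q ≠ f₂ → q ≤ y → q ≤ w) ⟨y, fun q _ _ _ h => h⟩
  have hWle : ∀ z, (∀ q, SupIrred q → q ≠ f₁ → q ≠ f₂ → q ≤ y → q ≤ z) → W ≤ z := by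
    intro z hz
    by_contra hcz
    refine hWmin (W ⊓ z) (lt_of_le_of_ne inf_le_left (fun h => hcz (inf_eq_left.mp h))) ?_
    intro q a b c d
    exact le_inf (hW q a b c d) (hz q a b c d)
  have hWy : W ≤ y := hWle y (fun q _ _ _ h => h)
  have hgen : ∀ z, ¬ W ≤ z → ∃ q, SupIrred q ∧ q ≠ f₁ ∧ q ≠ f₂ ∧ q ≤ y ∧ ¬ q ≤ z := by
    intro z hz
    by_contra hcon
    push Not at hcon
    exact hz (hWle z hcon)
  -- elements not above `f₁`, `f₂` and below `y` are below `W`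
  have hsmall : ∀ z, z ≤ y → ¬ f₁ ≤ z → ¬ f₂ ≤ z → z ≤ W := by
    intro z hz h1 h2
    by_contra hcon
    obtain ⟨q, hq, hqz, hqW, -⟩ := exists_irred hcon
    exact hqW (hW q hq (fun h => h1 (h ▸ hqz)) (fun h => h2 (h ▸ hqz)) (hqz.trans hz))
  have hlow1 : ∀ w, w < f₁ → w ≤ W := fun w hw =>
    hsmall w (hw.le.trans h1y) (not_le_of_gt hw) (fun h => h21 (h.trans hw.le))
  have hlow2 : ∀ w, w < f₂ → w ≤ W := fun w hw =>
    hsmall w (hw.le.trans h2y) (fun h => h12 (h.trans hw.le)) (not_le_of_gt hw)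
  have hDW : y ⊓ c ≤ W := hsmall _ inf_le_left (fun h => h1c (h.trans inf_le_right))
    (fun h => h2c (h.trans inf_le_right))
  have h1D : ¬ f₁ ≤ y ⊓ c := fun h => h1c (h.trans inf_le_right)
  have hlowD : ∀ q, SupIrred q → q ≠ f₁ → q ≠ f₂ → q ≤ y → ¬ q ≤ f₁ → ∀ w, w < q → w ≤ y ⊓ c :=
    fun q a b c' d e w hw => le_inf (hw.le.trans d) (hc q a b c' e w hw)
  -- `f₁ ≤ W`
  have h1W : f₁ ≤ W := by
    by_contra hcon
    obtain ⟨x, -, hx1, -, hx2⟩ := core (t := W) (y := y) (f := f₁) hWy h1y hcon (by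
      intro z hWz h1z hzy
      obtain ⟨q, hq, hqy, hqz, hql⟩ := exists_irred (not_le_of_gt hzy)
      refine ⟨q, hqy, hqz, ?_⟩
      by_cases hq2 : q = f₂
      · subst hq2; exact hlow2
      · exact absurd ((hW q hq (fun h => hqz (h ▸ h1z)) hq2 hqy).trans hWz) hqz)
    exact hno x hx1 hx2
  -- `W ≠ y`
  have hWne : W ≠ y := by
    rintro rfl
    obtain ⟨x, -, hx1, -, hx2⟩ := core (t := W ⊓ c) (y := W) (f := f₁) inf_le_left h1y h1D (by
      intro z hDz h1z hzy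
      obtain ⟨q, hq, hq1, hq2, hqy, hqz⟩ := hgen z (not_le_of_gt hzy)
      exact ⟨q, hqy, hqz, hlowD q hq hq1 hq2 hqy (fun h => hqz (h.trans h1z))⟩)
    exact hno x hx1 hx2
  have hyW : ∀ z, W ≤ z → f₂ ≤ z → y ≤ z := by
    intro z hz h2
    by_contra hcon
    obtain ⟨q, hq, hqy, hqz, -⟩ := exists_irred hcon
    exact hqz ((hW q hq (fun h => hqz (h ▸ h1W.trans hz)) (fun h => hqz (h ▸ h2)) hqy).trans hz)
  have h2W : ¬ f₂ ≤ W := fun h => hWne (le_antisymm hWy (hyW W le_rfl h))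
  have hWf2 : W ⊔ f₂ = y := le_antisymm (sup_le hWy h2y) (hyW _ le_sup_left le_sup_right)
  -- a lower cover `v` of `W` avoiding `f₁`
  obtain ⟨v, hDv, hv1, hvW, hvf⟩ := core (t := y ⊓ c) (y := W) (f := f₁) hDW h1W h1D (by
      intro z hDz h1z hzy
      obtain ⟨q, hq, hq1, hq2, hqy, hqz⟩ := hgen z (not_le_of_gt hzy)
      exact ⟨q, hW q hq hq1 hq2 hqy, hqz, hlowD q hq hq1 hq2 hqy (fun h => hqz (h.trans h1z))⟩)
  have hv2 : ¬ f₂ ≤ v := fun h => h2W (h.trans hvW.le)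
  by_cases hcase : ∀ w, w < f₂ → w ≤ v
  · exfalso
    have hcov := covBy_sup hcase hv2
    have hx1 : ¬ f₁ ≤ v ⊔ f₂ := by
      intro h
      have hWx : W ≤ v ⊔ f₂ := hvf ▸ sup_le le_sup_left h
      rcases eq_or_lt_of_le hWx with h' | h'
      · exact h2W (h' ▸ le_sup_right)
      · exact hcov.2 hvW.lt h'
    refine hno (v ⊔ f₂) hx1 (le_antisymm (sup_le (sup_le (hvW.le.trans hWy) h2y) h1y) ?_)
    refine hyW _ ?_ (le_sup_right.trans le_sup_left)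
    rw [← hvf]
    exact sup_le (le_sup_left.trans le_sup_left) le_sup_right
  · push Not at hcase
    obtain ⟨w, hw, hwv⟩ := hcase
    have hwW : w ≤ W := hlow2 w hw
    have hvw : v ⊔ w = W := by
      rcases eq_or_lt_of_le (sup_le hvW.le hwW : v ⊔ w ≤ W) with h | h
      · exact h
      · exact absurd h (hvW.2 (lt_of_le_of_ne le_sup_left (fun h' => hwv (h' ▸ le_sup_right))))
    refine ⟨W, v, hvW.ne', ⟨h2W, hWf2⟩, ⟨hv2, ?_⟩⟩
    refine le_antisymm (sup_le (hvW.le.trans hWy) h2y) (hyW _ ?_ le_sup_right)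
    rw [← hvw]
    exact sup_le le_sup_left (hw.le.trans le_sup_right)

end Pool.Agent.TH903.Semi
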