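import Pool.Agent.TH903.Semi.Main

set_option autoImplicit false

namespace Pool.Agent.TH903.Semi

open Finset

theorem count (L : Type*) [Lattice L] [Finite L] [IsUpperModularLattice L] (f : L) (hf : SupIrred f) :
    2 * Nat.card {x : L // f ≤ x} + Nat.card {x : L // ∃ w : L, w < f ∧ ¬ w ≤ x} ≤
      Nat.card L + Nat.card {y : L // ∀ z : L,
        (∀ g : L, SupIrred g → g ≤ y → ∀ w : L, w < g → w ≤ z) → f ≤ z} := by
  classical
  have := Fintype.ofFinite L
  have hc : ∀ (p : L → Prop) [DecidablePred p], Nat.card {x : L // p x} = (univ.filter p).card := by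
    intro p _
    rw [Nat.card_eq_fintype_card, Fintype.card_subtype]
  rw [hc (fun x : L => f ≤ x), hc (fun x : L => ∃ w : L, w < f ∧ ¬ w ≤ x), hc (fun y : L => ∀ z : L,
        (∀ g : L, SupIrred g → g ≤ y → ∀ w : L, w < g → w ≤ z) → f ≤ z),
    Nat.card_eq_fintype_card, ← card_univ]
  set U := univ.filter (fun x : L => f ≤ x) with hU
  set N := univ.filter (fun x : L => ∃ w : L, w < f ∧ ¬ w ≤ x) with hN
  set S := univ.filter (fun y : L => ∀ z : L,
        (∀ g : L, SupIrred g → g ≤ y → ∀ w : L, w < g → w ≤ z) → f ≤ z) with hS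
  set A := univ.filter (fun x : L => ¬ f ≤ x ∧ ∀ w : L, w < f → w ≤ x) with hA
  have h1 : U.card + A.card + N.card ≤ (univ : Finset L).card := by
    rw [← card_union_of_disjoint, ← card_union_of_disjoint]
    · exact card_le_univ _
    · rw [disjoint_left]
      intro x hx hxN
      simp only [hU, hA, hN, mem_union, mem_filter, mem_univ, true_and] at hx hxN
      obtain ⟨w, hw, hwx⟩ := hxN
      rcases hx with hx | hx
      · exact hwx (hw.le.trans hx)
      · exact hwx (hx.2 w hw)
    · rw [disjoint_left]
      intro x hx hxA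
      simp only [hU, hA, mem_filter, mem_univ, true_and] at hx hxA
      exact hxA.1 hx
  have h2 : U ⊆ A.image (fun x => x ⊔ f) ∪ S := by
    intro y hy
    simp only [hU, mem_filter, mem_univ, true_and] at hy
    by_cases hyS : y ∈ S
    · exact mem_union_right _ hyS
    · apply mem_union_left
      simp only [hS, mem_filter, mem_univ, true_and] at hyS
      push Not at hyS
      obtain ⟨z, hz, hfz⟩ := hyS
      have hlow : ∀ g : L, SupIrred g → g ≤ y → ∀ w : L, w < g → w ≤ y ⊓ z :=
        fun g hg hgy w hw => le_inf (hw.le.trans hgy) (hz g hg hgy w hw)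
      obtain ⟨x, htx, hfx, -, hxf⟩ := core (t := y ⊓ z) (y := y) (f := f) inf_le_left hy
        (fun h => hfz (h.trans inf_le_right)) (by
        intro v hv _ hvy
        obtain ⟨q, hq, hqy, hqv, -⟩ := exists_irred (not_le_of_gt hvy)
        exact ⟨q, hqy, hqv, hlow q hq hqy⟩)
      refine mem_image.mpr ⟨x, ?_, hxf⟩
      simp only [hA, mem_filter, mem_univ, true_and]
      exact ⟨hfx, fun w hw => (hlow f hf hy w hw).trans htx⟩
  have h3 := card_le_card h2
  have h4 := card_union_le (A.image (fun x => x ⊔ f)) S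
  have h5 : (A.image (fun x => x ⊔ f)).card ≤ A.card := card_image_le
  omega

end Pool.Agent.TH903.Semi
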