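import Pool.Agent.TH903.Semi.Strict

set_option autoImplicit false

namespace Pool.Agent.TH903.Semi

open Finset OrderDual

variable {α : Type*} [DecidableEq α]

/-- largest member of `insert ∅ A` avoiding `x` -/
def avoid (A : Finset (Finset α)) (x : α) : Finset α :=
  ((insert ∅ A).filter (fun X => x ∉ X)).sup id

lemma notMem_avoid (A : Finset (Finset α)) (x : α) : x ∉ avoid A x := by
  intro h
  rw [avoid, mem_sup] at h
  obtain ⟨X, hX, hx⟩ := h
  exact (mem_filter.mp hX).2 hx

lemma le_avoid {A : Finset (Finset α)} {x : α} {X : Finset α} (hX : X ∈ insert ∅ A) :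
    X ⊆ avoid A x ↔ x ∉ X := by
  constructor
  · intro h hx
    exact notMem_avoid A x (h hx)
  · intro h
    exact le_sup (f := id) (mem_filter.mpr ⟨hX, h⟩)

lemma union_insert {A : Finset (Finset α)} (hU : ∀ X ∈ A, ∀ Y ∈ A, X ∪ Y ∈ A) :
    ∀ X ∈ insert ∅ A, ∀ Y ∈ insert ∅ A, X ∪ Y ∈ insert ∅ A := by
  intro X hX Y hY
  rcases mem_insert.mp hX with rfl | hX'
  · rw [empty_union]; exact hY
  · rcases mem_insert.mp hY with rfl | hY'
    · rw [union_empty]; exact hX
    · exact mem_insert_of_mem (hU X hX' Y hY')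

lemma sup_mem_insert {A : Finset (Finset α)} (hU : ∀ X ∈ A, ∀ Y ∈ A, X ∪ Y ∈ A)
    (B : Finset (Finset α)) (hB : B ⊆ insert ∅ A) : B.sup id ∈ insert ∅ A := by
  induction B using Finset.induction_on with
  | empty => simp
  | insert X B _ ih =>
    rw [sup_insert]
    exact union_insert hU X (hB (mem_insert_self X B)) _ (ih ((subset_insert X B).trans hB))

lemma avoid_mem {A : Finset (Finset α)} (hU : ∀ X ∈ A, ∀ Y ∈ A, X ∪ Y ∈ A) (x : α) :
    avoid A x ∈ insert ∅ A := sup_mem_insert hU _ (filter_subset _ _)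

theorem family (A : Finset (Finset α)) (hne : A.Nonempty)
    (hU : ∀ X ∈ A, ∀ Y ∈ A, X ∪ Y ∈ A)
    (hsep : ∀ x ∈ A.sup id, ∀ y ∈ A.sup id, x ≠ y →
      ∃ S ∈ A, (x ∈ S ∧ y ∉ S) ∨ (y ∈ S ∧ x ∉ S))
    (hpow : A ≠ (A.sup id).powerset)
    (L : Type*) [Lattice L] [BoundedOrder L] [Finite L]
    (e : {X : Finset α // X ∈ insert ∅ A} ≃o Lᵒᵈ) (hS : StrictJ L) :
    ∃ x ∈ A.sup id, A.card < 2 * (A.filter (fun S => x ∈ S)).card := by
  classical
  set B : Finset (Finset α) := insert ∅ A with hB
  set U : Finset α := A.sup id with hUdef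
  have hcardL : Nat.card L = B.card := by
    have h1 : Nat.card {X : Finset α // X ∈ B} = Nat.card L := Nat.card_congr (e.toEquiv.trans ofDual)
    rw [← h1, Nat.card_eq_fintype_card, Fintype.card_coe]
  let j : α → L := fun x => ofDual (e ⟨avoid A x, avoid_mem hU x⟩)
  have hsubU : ∀ X ∈ B, X ⊆ U := by
    intro X hX
    rcases mem_insert.mp hX with rfl | hX'
    · exact empty_subset _
    · exact le_sup (f := id) hX'
  have hUB : U ∈ B := sup_mem_insert hU A (subset_insert _ _)
  -- translation of `j x ≤ l`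
  have hj : ∀ x (X : {X : Finset α // X ∈ B}), j x ≤ ofDual (e X) ↔ x ∉ X.1 := by
    intro x X
    rw [← le_avoid (A := A) (x := x) X.2]
    have : j x ≤ ofDual (e X) ↔ e X ≤ e ⟨avoid A x, avoid_mem hU x⟩ := Iff.rfl
    rw [this, e.le_iff_le]
    rfl
  have hcount : ∀ x, Nat.card {l : L // j x ≤ l} = (B.filter (fun X => x ∉ X)).card := by
    intro x
    have e1 : {X : {X : Finset α // X ∈ B} // x ∉ X.1} ≃ {l : L // j x ≤ l} :=
      (e.toEquiv.trans ofDual).subtypeEquiv (fun X => (hj x X).symm)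
    have e2 : {X : {X : Finset α // X ∈ B} // x ∉ X.1} ≃ {X : Finset α // X ∈ B.filter (fun X => x ∉ X)} :=
      { toFun := fun X => ⟨X.1.1, mem_filter.mpr ⟨X.1.2, X.2⟩⟩
        invFun := fun X => ⟨⟨X.1, (mem_filter.mp X.2).1⟩, (mem_filter.mp X.2).2⟩
        left_inv := fun X => rfl
        right_inv := fun X => rfl }
    rw [← Nat.card_congr e1, Nat.card_congr e2, Nat.card_eq_fintype_card, Fintype.card_coe]
  have hBA : A.card ≤ B.card := card_le_card (subset_insert _ _)
  have hfil : ∀ x, (B.filter (fun X => x ∈ X)).card = (A.filter (fun X => x ∈ X)).card := by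
    intro x
    congr 1
    ext X
    simp only [mem_filter, hB, mem_insert]
    constructor
    · rintro ⟨rfl | h, hx⟩
      · simp at hx
      · exact ⟨h, hx⟩
    · rintro ⟨h, hx⟩
      exact ⟨Or.inr h, hx⟩
  have hsum : ∀ x, (B.filter (fun X => x ∈ X)).card + (B.filter (fun X => x ∉ X)).card = B.card := fun x =>
    card_filter_add_card_filter_not _
  -- a light `j x` is enough
  have hdone : ∀ x ∈ U, 2 * Nat.card {l : L // j x ≤ l} < Nat.card L →
      ∃ x ∈ U, A.card < 2 * (A.filter (fun S => x ∈ S)).card := by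
    intro x hx h
    refine ⟨x, hx, ?_⟩
    rw [hcount, hcardL] at h
    rw [← hfil]
    have := hsum x
    omega
  have hjbot : ∀ x ∈ U, j x ≠ ⊥ := by
    intro x hx h
    have h1 : j x ≤ ofDual (e ⟨U, hUB⟩) := h ▸ bot_le
    exact (hj x ⟨U, hUB⟩).mp h1 hx
  rcases hS with ⟨k, hk, hlt⟩ | ⟨n, hn, hat, hnat⟩
  · -- `k = j x` for some `x`
    obtain ⟨M, hM⟩ : ∃ M : {X : Finset α // X ∈ B}, ofDual (e M) = k := ⟨e.symm (toDual k), by simp⟩
    have hle : (U \ M.1).sup j ≤ k := by
      refine Finset.sup_le (fun x hx => ?_)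
      rw [← hM]
      exact (hj x M).mpr (mem_sdiff.mp hx).2
    obtain ⟨X, hX⟩ : ∃ X : {X : Finset α // X ∈ B}, ofDual (e X) = (U \ M.1).sup j :=
      ⟨e.symm (toDual ((U \ M.1).sup j)), by rw [OrderIso.apply_symm_apply]; rfl⟩
    have hXM : X ≤ M := by
      intro y hy
      by_contra hyM
      have hyU : y ∈ U := hsubU X.1 X.2 hy
      have h1 : j y ≤ ofDual (e X) := by
        rw [hX]
        exact Finset.le_sup (mem_sdiff.mpr ⟨hyU, hyM⟩)
      exact (hj y X).mp h1 hy
    have hge : k ≤ (U \ M.1).sup j := by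
      rw [← hM, ← hX]
      exact e.le_iff_le.mpr hXM
    obtain ⟨x, hx, hxk⟩ := hk.finset_sup_eq (le_antisymm hle hge)
    rw [← hxk] at hlt
    exact hdone x (mem_sdiff.mp hx).1 hlt
  · by_cases hall : ∀ x ∈ U, IsAtom (j x)
    · -- then `B` is the power set of `U`
      have hinj : Set.InjOn j (U : Set α) := by
        intro x hx y hy hxy
        by_contra hne'
        have hx' : x ∈ U := hx
        have hy' : y ∈ U := hy
        obtain ⟨S, hS, hS'⟩ := hsep x hx' y hy' hne'
        have hSB : S ∈ B := mem_insert_of_mem hS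
        have h1 : x ∉ S ↔ y ∉ S := by
          rw [← hj x ⟨S, hSB⟩, ← hj y ⟨S, hSB⟩, hxy]
        rcases hS' with ⟨a, b⟩ | ⟨a, b⟩
        · exact (h1.mpr b) a
        · exact (h1.mp b) a
      have hUn : U.card ≤ n := by
        rw [← hat, ← Set.ncard_coe_finset, ← hinj.ncard_image]
        apply Set.ncard_le_ncard
        · rintro _ ⟨x, hx, rfl⟩
          exact hall x hx
        · exact Set.toFinite _
      have hBpow : B ⊆ U.powerset := fun X hX => mem_powerset.mpr (hsubU X hX)
      have hBcard : B.card = 2 ^ n := by rw [← hcardL, hn]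
      have h1 : 2 ^ U.card ≤ 2 ^ n := Nat.pow_le_pow_right (by norm_num) hUn
      have hBeq : B = U.powerset := by
        apply eq_of_subset_of_card_le hBpow
        rw [card_powerset, hBcard]
        exact h1
      have hemp : ∅ ∉ A := by
        intro h
        apply hpow
        rw [← hBeq, hB, insert_eq_of_mem h]
      have hBA' : B.card = A.card + 1 := card_insert_of_notMem hemp
      have hUne : U.Nonempty := by
        by_contra hc
        rw [not_nonempty_iff_eq_empty] at hc
        rw [hc, powerset_empty] at hBeq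
        have h2 : A.card = 0 := by
          have : B.card = 1 := by rw [hBeq, card_singleton]
          omega
        exact hne.ne_empty (card_eq_zero.mp h2)
      obtain ⟨x, hx⟩ := hUne
      refine ⟨x, hx, ?_⟩
      have h3 : B.filter (fun X => x ∉ X) = (U.erase x).powerset := by
        rw [hBeq]
        ext X
        simp only [mem_filter, mem_powerset, subset_erase]
      have h4 := hsum x
      rw [h3, card_powerset, card_erase_of_mem hx, hfil] at h4
      have h5 : B.card = 2 ^ U.card := by rw [hBeq, card_powerset]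
      have h6 : 2 ^ U.card = 2 * 2 ^ (U.card - 1) := by
        have : 0 < U.card := card_pos.mpr ⟨x, hx⟩
        rw [← pow_succ', Nat.sub_add_cancel this]
      omega
    · push Not at hall
      obtain ⟨x, hx, hxa⟩ := hall
      exact hdone x hx (hnat (j x) (hjbot x hx) hxa)

end Pool.Agent.TH903.Semi
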