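import Pool.Agent.TH903.Semi.Basic

set_option autoImplicit false

namespace Pool.Agent.TH903.Semi

open Finset

variable {L : Type*} [Lattice L] [Finite L] [IsUpperModularLattice L]

omit [Finite L] [IsUpperModularLattice L] in
lemma half_of_le (f : L) [Fintype L] [DecidableLE L]
    (h : (univ.filter (fun x => f ≤ x)).card ≤ (univ.filter (fun x => ¬ f ≤ x)).card) :
    2 * Nat.card {x : L // f ≤ x} ≤ Nat.card L := by
  have h1 : Nat.card {x : L // f ≤ x} = (univ.filter (fun x => f ≤ x)).card := by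
    rw [Nat.card_eq_fintype_card, Fintype.card_subtype]
  have h2 : Nat.card L = (univ.filter (fun x : L => f ≤ x)).card + (univ.filter (fun x => ¬ f ≤ x)).card := by
    rw [Nat.card_eq_fintype_card, ← Finset.card_univ, Finset.card_filter_add_card_filter_not]
  omega

/-- one exceptional element -/
lemma single {c f : L} (hfc : ¬ f ≤ c)
    (hc : ∀ g, SupIrred g → ¬ g ≤ f → ∀ w, w < g → w ≤ c) :
    2 * Nat.card {x : L // f ≤ x} ≤ Nat.card L := by
  classical
  have := Fintype.ofFinite L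
  apply half_of_le
  have hsub : univ.filter (fun y => f ≤ y) ⊆ (univ.filter (fun x => ¬ f ≤ x)).image (fun x => x ⊔ f) := by
    intro y hy
    simp only [mem_filter, mem_univ, true_and] at hy
    simp only [mem_image, mem_filter, mem_univ, true_and]
    obtain ⟨x, -, hx1, -, hx2⟩ := core (t := y ⊓ c) (y := y) (f := f) inf_le_left hy
      (fun h => hfc (h.trans inf_le_right)) (by
      intro z hDz h1z hzy
      obtain ⟨q, hq, hqy, hqz, -⟩ := exists_irred (not_le_of_gt hzy)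
      exact ⟨q, hqy, hqz, fun w hw =>
        le_inf (hw.le.trans hqy) (hc q hq (fun h => hqz (h.trans h1z)) w hw)⟩)
    exact ⟨x, hx1, hx2⟩
  exact (card_le_card hsub).trans card_image_le

omit [Finite L] [IsUpperModularLattice L] in
lemma one_of_fibre {f y : L} [Fintype L] [DecidableLE L] [DecidableEq L] (h : ∃ x, ¬ f ≤ x ∧ x ⊔ f = y) :
    1 ≤ ((univ.filter (fun x => ¬ f ≤ x)).filter (fun x => x ⊔ f = y)).card := by
  obtain ⟨x, hx⟩ := h
  refine card_pos.mpr ⟨x, ?_⟩
  simp [hx.1, hx.2]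

omit [Finite L] [IsUpperModularLattice L] in
lemma two_of_fibre {f y : L} [Fintype L] [DecidableLE L] [DecidableEq L]
    (h : ∃ u v : L, u ≠ v ∧ (¬ f ≤ u ∧ u ⊔ f = y) ∧ (¬ f ≤ v ∧ v ⊔ f = y)) :
    2 ≤ ((univ.filter (fun x => ¬ f ≤ x)).filter (fun x => x ⊔ f = y)).card := by
  obtain ⟨u, v, huv, hu, hv⟩ := h
  refine Finset.one_lt_card.mpr ⟨u, ?_, v, ?_, huv⟩
  · simp [hu.1, hu.2]
  · simp [hv.1, hv.2]

/-- two incomparable exceptional elements -/
lemma double {c f₁ f₂ : L} (h1c : ¬ f₁ ≤ c) (h2c : ¬ f₂ ≤ c)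
    (h12 : ¬ f₁ ≤ f₂) (h21 : ¬ f₂ ≤ f₁)
    (hc : ∀ g, SupIrred g → g ≠ f₁ → g ≠ f₂ → (¬ g ≤ f₁ ∨ ¬ g ≤ f₂) → ∀ w, w < g → w ≤ c) :
    2 * Nat.card {x : L // f₁ ≤ x} ≤ Nat.card L ∨ 2 * Nat.card {x : L // f₂ ≤ x} ≤ Nat.card L := by
  classical
  have := Fintype.ofFinite L
  have hsum : ∀ f : L, (univ.filter (fun x => ¬ f ≤ x)).card =
      ∑ y, ((univ.filter (fun x => ¬ f ≤ x)).filter (fun x => x ⊔ f = y)).card := fun f =>
    card_eq_sum_card_fiberwise (fun x _ => by simp)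
  have hsum2 : ∀ f : L, (univ.filter (fun y => f ≤ y)).card = ∑ y, if f ≤ y then 1 else 0 := fun f =>
    card_filter _ _
  have hpt : ∀ y : L, (if f₁ ≤ y then 1 else 0) + (if f₂ ≤ y then 1 else 0) ≤
      ((univ.filter (fun x => ¬ f₁ ≤ x)).filter (fun x => x ⊔ f₁ = y)).card +
      ((univ.filter (fun x => ¬ f₂ ≤ x)).filter (fun x => x ⊔ f₂ = y)).card := by
    intro y
    have hs1 : f₁ ≤ y → ¬ f₂ ≤ y → ∃ x, ¬ f₁ ≤ x ∧ x ⊔ f₁ = y := by
      intro hy1 hy2
      obtain ⟨x, -, hx1, -, hx2⟩ := core (t := y ⊓ c) (y := y) (f := f₁) inf_le_left hy1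
        (fun h => h1c (h.trans inf_le_right)) (by
        intro z hDz h1z hzy
        obtain ⟨q, hq, hqy, hqz, -⟩ := exists_irred (not_le_of_gt hzy)
        exact ⟨q, hqy, hqz, fun w hw => le_inf (hw.le.trans hqy)
          (hc q hq (fun h => hqz (h ▸ h1z)) (fun h => hy2 (h ▸ hqy))
            (Or.inl (fun h => hqz (h.trans h1z))) w hw)⟩)
      exact ⟨x, hx1, hx2⟩
    have hs2 : f₂ ≤ y → ¬ f₁ ≤ y → ∃ x, ¬ f₂ ≤ x ∧ x ⊔ f₂ = y := by
      intro hy2 hy1
      obtain ⟨x, -, hx1, -, hx2⟩ := core (t := y ⊓ c) (y := y) (f := f₂) inf_le_left hy2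
        (fun h => h2c (h.trans inf_le_right)) (by
        intro z hDz h1z hzy
        obtain ⟨q, hq, hqy, hqz, -⟩ := exists_irred (not_le_of_gt hzy)
        exact ⟨q, hqy, hqz, fun w hw => le_inf (hw.le.trans hqy)
          (hc q hq (fun h => hy1 (h ▸ hqy)) (fun h => hqz (h ▸ h1z))
            (Or.inr (fun h => hqz (h.trans h1z))) w hw)⟩)
      exact ⟨x, hx1, hx2⟩
    by_cases hy1 : f₁ ≤ y
    · by_cases hy2 : f₂ ≤ y
      · rw [if_pos hy1, if_pos hy2]
        by_cases hn1 : ∃ x, ¬ f₁ ≤ x ∧ x ⊔ f₁ = y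
        · by_cases hn2 : ∃ x, ¬ f₂ ≤ x ∧ x ⊔ f₂ = y
          · exact Nat.add_le_add (one_of_fibre hn1) (one_of_fibre hn2)
          · push Not at hn2
            have := two_of_fibre (two_fibre (c := c) h2c h1c h21 h12
              (fun g hg a b d => hc g hg b a (Or.inr d)) hy2 hy1 hn2)
            omega
        · push Not at hn1
          have := two_of_fibre (two_fibre (c := c) h1c h2c h12 h21
            (fun g hg a b d => hc g hg a b (Or.inl d)) hy1 hy2 hn1)
          omega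
      · rw [if_pos hy1, if_neg hy2]
        have := one_of_fibre (hs1 hy1 hy2)
        omega
    · by_cases hy2 : f₂ ≤ y
      · rw [if_neg hy1, if_pos hy2]
        have := one_of_fibre (hs2 hy2 hy1)
        omega
      · rw [if_neg hy1, if_neg hy2]
        omega
  have htot : (univ.filter (fun y => f₁ ≤ y)).card + (univ.filter (fun y => f₂ ≤ y)).card ≤
      (univ.filter (fun x => ¬ f₁ ≤ x)).card + (univ.filter (fun x => ¬ f₂ ≤ x)).card := by
    rw [hsum f₁, hsum f₂, hsum2 f₁, hsum2 f₂, ← sum_add_distrib, ← sum_add_distrib]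
    exact sum_le_sum (fun y _ => hpt y)
  rcases le_total (univ.filter (fun y => f₁ ≤ y)).card (univ.filter (fun x => ¬ f₁ ≤ x)).card with h | h
  · exact Or.inl (half_of_le f₁ h)
  · exact Or.inr (half_of_le f₂ (by omega))

/-- The criterion with one or two exceptional join-irreducible elements. -/
theorem criterion (c : L) (F : Finset L) (hne : F.Nonempty) (hcard : F.card ≤ 2)
    (hF : ∀ f ∈ F, ¬ f ≤ c)
    (hc : ∀ g, SupIrred g → g ∉ F → (∃ f ∈ F, ¬ g ≤ f) → ∀ w, w < g → w ≤ c) :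
    ∃ f ∈ F, 2 * Nat.card {x : L // f ≤ x} ≤ Nat.card L := by
  classical
  have h12 : F.card = 1 ∨ F.card = 2 := by
    have := hne.card_pos
    omega
  rcases h12 with h | h
  · obtain ⟨f, rfl⟩ := card_eq_one.mp h
    refine ⟨f, mem_singleton_self f, single (hF f (mem_singleton_self f)) ?_⟩
    intro g hg hgf
    exact hc g hg (fun h => hgf (mem_singleton.mp h).le) ⟨f, mem_singleton_self f, hgf⟩
  · obtain ⟨f₁, f₂, hne12, rfl⟩ := card_eq_two.mp h
    have m1 : f₁ ∈ ({f₁, f₂} : Finset L) := by simp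
    have m2 : f₂ ∈ ({f₁, f₂} : Finset L) := by simp
    by_cases h12 : f₁ ≤ f₂
    · refine ⟨f₂, m2, single (hF f₂ m2) ?_⟩
      intro g hg hgf
      refine hc g hg (fun h => ?_) ⟨f₂, m2, hgf⟩
      rcases mem_insert.mp h with h | h
      · exact hgf (h ▸ h12)
      · exact hgf (mem_singleton.mp h).le
    · by_cases h21 : f₂ ≤ f₁
      · refine ⟨f₁, m1, single (hF f₁ m1) ?_⟩
        intro g hg hgf
        refine hc g hg (fun h => ?_) ⟨f₁, m1, hgf⟩
        rcases mem_insert.mp h with h | h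
        · exact hgf h.le
        · exact hgf ((mem_singleton.mp h).symm ▸ h21)
      · rcases double (c := c) (hF f₁ m1) (hF f₂ m2) h12 h21 (fun g hg a b hor => by
          refine hc g hg (by simp [a, b]) ?_
          rcases hor with h | h
          · exact ⟨f₁, m1, h⟩
          · exact ⟨f₂, m2, h⟩) with h | h
        · exact ⟨f₁, m1, h⟩
        · exact ⟨f₂, m2, h⟩

end Pool.Agent.TH903.Semi
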