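import Pool.Agent.TH903.Semi.Main

set_option autoImplicit false

namespace Pool.Agent.TH903.Semi

open Finset

theorem six (L : Type*) [Lattice L] [BoundedOrder L] [Finite L] [IsUpperModularLattice L]
    (h2 : 2 ≤ Nat.card L)
    (h6 : {f : L | SupIrred f ∧ ∃ c x : L, IsCoatom c ∧ x < f ∧ ¬ x ≤ c}.ncard ≤ 6) :
    ∃ a : L, SupIrred a ∧ 2 * Nat.card {x : L // a ≤ x} ≤ Nat.card L := by
  classical
  have := Fintype.ofFinite L
  have hnt : Nontrivial L := Finite.one_lt_card_iff_nontrivial.mp (by omega)
  set N : Finset L := univ.filter (fun f => SupIrred f ∧ ∃ c x : L, IsCoatom c ∧ x < f ∧ ¬ x ≤ c) with hN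
  have hN6 : N.card ≤ 6 := by
    rw [← Set.ncard_coe_finset]
    simpa [hN] using h6
  set F : L → Finset L := fun c => univ.filter (fun f => SupIrred f ∧ ∃ x, x < f ∧ ¬ x ≤ c) with hF
  have hFN : ∀ c, IsCoatom c → F c ⊆ N := by
    intro c hc f hf
    simp only [hF, hN, mem_filter, mem_univ, true_and] at hf ⊢
    obtain ⟨h1, x, h3, h4⟩ := hf
    exact ⟨h1, c, x, hc, h3, h4⟩
  by_cases hex : ∃ c, IsCoatom c ∧ (F c).card ≤ 2
  · obtain ⟨c, hc, hc2⟩ := hex
    by_cases hemp : (F c).Nonempty
    · obtain ⟨f, hf, hcard⟩ := criterion c (F c) hemp hc2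
        (by
          intro f hf hfc
          simp only [hF, mem_filter, mem_univ, true_and] at hf
          obtain ⟨-, x, hx, hxc⟩ := hf
          exact hxc (hx.le.trans hfc))
        (by
          intro g hg hgF _ w hw
          by_contra hwc
          exact hgF (by simp only [hF, mem_filter, mem_univ, true_and]; exact ⟨hg, w, hw, hwc⟩))
      simp only [hF, mem_filter, mem_univ, true_and] at hf
      exact ⟨f, hf.1, hcard⟩
    · have htop : ¬ (⊤ : L) ≤ c := fun h => hc.1 (top_le_iff.mp h)
      obtain ⟨f, hf, -, hfc, -⟩ := exists_irred htop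
      refine ⟨f, hf, single (c := c) hfc ?_⟩
      intro g hg _ w hw
      by_contra hwc
      exact hemp ⟨g, by simp only [hF, mem_filter, mem_univ, true_and]; exact ⟨hg, w, hw, hwc⟩⟩
  · push Not at hex
    by_contra hcon
    push Not at hcon
    -- all elements of `N` are heavy
    have hheavy : ∀ f ∈ N, Fintype.card L + 1 ≤ 2 * (univ.filter (fun x => f ≤ x)).card := by
      intro f hf
      have h1 := hcon f (by simp only [hN, mem_filter, mem_univ, true_and] at hf; exact hf.1)
      rw [Nat.card_eq_fintype_card, Nat.card_eq_fintype_card, Fintype.card_subtype] at h1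
      omega
    have hswap : ∑ f ∈ N, (univ.filter (fun x => f ≤ x)).card = ∑ y : L, (N.filter (fun f => f ≤ y)).card := by
      simp only [card_filter]
      exact sum_comm
    have hbot : (N.filter (fun f => f ≤ (⊥ : L))).card = 0 := by
      rw [card_eq_zero, filter_eq_empty_iff]
      intro f hf hle
      simp only [hN, mem_filter, mem_univ, true_and] at hf
      exact hf.1.1 (le_bot_iff.mp hle ▸ isMin_bot)
    have htopc : (N.filter (fun f => f ≤ (⊤ : L))).card ≤ N.card := card_filter_le _ _
    have hmid : ∀ y : L, y ≠ ⊤ → (N.filter (fun f => f ≤ y)).card + 3 ≤ N.card := by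
      intro y hy
      obtain ⟨c, hc, hyc⟩ := (eq_top_or_exists_le_coatom y).resolve_left hy
      have h3 := hex c hc
      have hdisj : Disjoint (N.filter (fun f => f ≤ y)) (F c) := by
        rw [disjoint_left]
        intro f hf1 hf2
        simp only [hF, mem_filter, mem_univ, true_and] at hf2
        obtain ⟨-, x, hx, hxc⟩ := hf2
        exact hxc (hx.le.trans ((mem_filter.mp hf1).2.trans hyc))
      have hsub : N.filter (fun f => f ≤ y) ∪ F c ⊆ N := union_subset (filter_subset _ _) (hFN c hc)
      have := card_le_card hsub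
      rw [card_union_of_disjoint hdisj] at this
      omega
    -- sum over all `y`
    have hsum : ∑ y : L, (N.filter (fun f => f ≤ y)).card ≤ N.card + (Fintype.card L - 2) * (N.card - 3) := by
      rw [← Finset.add_sum_erase univ _ (mem_univ (⊤ : L)),
        ← Finset.add_sum_erase (univ.erase ⊤) _ (mem_erase.mpr ⟨bot_ne_top, mem_univ (⊥ : L)⟩), hbot]
      have hcard : ((univ.erase (⊤ : L)).erase ⊥).card = Fintype.card L - 2 := by
        rw [card_erase_of_mem (mem_erase.mpr ⟨bot_ne_top, mem_univ (⊥ : L)⟩), card_erase_of_mem (mem_univ _),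
          card_univ]
        omega
      have h1 : ∑ y ∈ (univ.erase (⊤ : L)).erase ⊥, (N.filter (fun f => f ≤ y)).card ≤
          ((univ.erase (⊤ : L)).erase ⊥).card • (N.card - 3) := by
        apply sum_le_card_nsmul
        intro y hy
        have := hmid y (mem_erase.mp (mem_erase.mp hy).2).1
        omega
      rw [hcard, smul_eq_mul] at h1
      omega
    have hlow : N.card * (Fintype.card L + 1) ≤ 2 * ∑ f ∈ N, (univ.filter (fun x => f ≤ x)).card := by
      rw [mul_sum, ← smul_eq_mul]
      exact card_nsmul_le_sum _ _ _ hheavy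
    rw [hswap] at hlow
    have hn : 2 ≤ Fintype.card L := by rwa [Nat.card_eq_fintype_card] at h2
    -- `N` has at least three elements
    have h3N : 3 ≤ N.card := by
      have := hmid ⊥ bot_ne_top
      omega
    generalize hSdef : ∑ y : L, (N.filter (fun f => f ≤ y)).card = S at hsum hlow
    generalize hk : N.card = k at *
    obtain ⟨m, hm⟩ : ∃ m, Fintype.card L = m + 2 := ⟨Fintype.card L - 2, by omega⟩
    rw [hm] at hsum hlow
    simp only [Nat.add_sub_cancel] at hsum
    interval_cases k <;> omega

end Pool.Agent.TH903.Semi
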