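import Pool.Agent.TH903.Semi.Main

set_option autoImplicit false

namespace Pool.Agent.TH903.Semi

open Finset

/-- Numerical shadow of being a Boolean lattice. -/
def BoolLike (L : Type*) [Lattice L] [BoundedOrder L] : Prop :=
  ∃ n : ℕ, Nat.card L = 2 ^ n ∧ {a : L | IsAtom a}.ncard = n ∧
    ∀ a : L, a ≠ ⊥ → ¬ IsAtom a → 2 * Nat.card {x : L // a ≤ x} < Nat.card L

/-- Strict form of Frankl's property. -/
def StrictJ (L : Type*) [Lattice L] [BoundedOrder L] : Prop :=
  (∃ j : L, SupIrred j ∧ 2 * Nat.card {x : L // j ≤ x} < Nat.card L) ∨ BoolLike L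

/-- `L` is the product of `Iic m` and a two element chain generated by `f`. -/
structure Decomp {L : Type*} [Lattice L] [BoundedOrder L] (m f : L) : Prop where
  nle : ¬ f ≤ m
  cover : ∀ x, ¬ f ≤ x → x ≤ m
  down : ∀ y, y ≤ m → (y ⊔ f) ⊓ m = y
  up : ∀ x, f ≤ x → (x ⊓ m) ⊔ f = x

section
variable {L : Type*} [Lattice L] [BoundedOrder L] {m f : L}

lemma Decomp.inf_bot (h : Decomp m f) : f ⊓ m = ⊥ := by
  have := h.down ⊥ bot_le
  rwa [bot_sup_eq] at this

lemma Decomp.isAtom (h : Decomp m f) : IsAtom f := by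
  refine ⟨fun h' => h.nle (h' ▸ bot_le), fun x hx => ?_⟩
  have h1 : x ≤ m := h.cover x (not_le_of_gt hx)
  have h2 : x ≤ f ⊓ m := le_inf hx.le h1
  rw [h.inf_bot] at h2
  exact le_bot_iff.mp h2

/-- The bijection `L ≃ Iic m × Bool`. -/
noncomputable def Decomp.equiv (h : Decomp m f) : L ≃ Set.Iic m × Bool := by
  classical
  exact
  { toFun := fun x => (⟨x ⊓ m, inf_le_right⟩, decide (f ≤ x))
    invFun := fun p => if p.2 then p.1.1 ⊔ f else p.1.1
    left_inv := by
      intro x
      by_cases hx : f ≤ x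
      · simp [hx, h.up x hx]
      · simp [hx, h.cover x hx]
    right_inv := by
      rintro ⟨⟨y, hy⟩, b⟩
      have hy' : y ≤ m := hy
      have hny : ¬ f ≤ y := fun h' => h.nle (h'.trans hy')
      cases b
      · simp [hny, hy']
      · simp [h.down y hy'] }

lemma Decomp.equiv_le (h : Decomp m f) {a : L} (ha : a ≤ m) (x : L) :
    a ≤ x ↔ (⟨a, ha⟩ : Set.Iic m) ≤ (h.equiv x).1 := by
  change a ≤ x ↔ a ≤ x ⊓ m
  exact ⟨fun h' => le_inf h' ha, fun h' => h'.trans inf_le_left⟩

variable [Finite L]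

omit [Finite L] in
lemma Decomp.card (h : Decomp m f) : Nat.card L = 2 * Nat.card (Set.Iic m) := by
  rw [Nat.card_congr h.equiv, Nat.card_prod, Nat.card_eq_fintype_card (α := Bool), Fintype.card_bool, mul_comm]

omit [Finite L] in
lemma Decomp.card_up (h : Decomp m f) {a : L} (ha : a ≤ m) :
    Nat.card {x : L // a ≤ x} = 2 * Nat.card {x : Set.Iic m // (⟨a, ha⟩ : Set.Iic m) ≤ x} := by
  have e1 : {x : L // a ≤ x} ≃ {p : Set.Iic m × Bool // (⟨a, ha⟩ : Set.Iic m) ≤ p.1} :=
    h.equiv.subtypeEquiv (fun x => h.equiv_le ha x)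
  have e2 : {p : Set.Iic m × Bool // (⟨a, ha⟩ : Set.Iic m) ≤ p.1} ≃
      {x : Set.Iic m // (⟨a, ha⟩ : Set.Iic m) ≤ x} × Bool :=
    { toFun := fun p => (⟨p.1.1, p.2⟩, p.1.2)
      invFun := fun q => ⟨(q.1.1, q.2), q.1.2⟩
      left_inv := fun p => rfl
      right_inv := fun q => rfl }
  rw [Nat.card_congr (e1.trans e2), Nat.card_prod, Nat.card_eq_fintype_card (α := Bool), Fintype.card_bool, mul_comm]

/-- elements above `f`: count of those above `a` when `a ≥ f`, `a ≠ f` -/
lemma Decomp.card_up' (h : Decomp m f) {a : L} (ha : f ≤ a) (hne : a ≠ f) :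
    2 * Nat.card {x : L // a ≤ x} < Nat.card L := by
  have hinj : Nat.card {x : L // a ≤ x} < Nat.card (Set.Iic m) := by
    have hbot : a ⊓ m ≠ ⊥ := by
      intro h'
      apply hne
      have := h.up a ha
      rw [h', bot_sup_eq] at this
      exact this.symm
    let g : {x : L // a ≤ x} → {y : Set.Iic m // y ≠ ⟨⊥, bot_le⟩} := fun x =>
      ⟨⟨x.1 ⊓ m, inf_le_right⟩, by
        intro h'
        apply hbot
        have h1 : x.1 ⊓ m = ⊥ := congrArg Subtype.val h'
        exact le_bot_iff.mp (h1 ▸ inf_le_inf_right m x.2)⟩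
    have hg : Function.Injective g := by
      rintro ⟨x, hx⟩ ⟨y, hy⟩ hxy
      have h1 : x ⊓ m = y ⊓ m := congrArg (fun z : {y : Set.Iic m // y ≠ ⟨⊥, bot_le⟩} => z.1.1) hxy
      apply Subtype.ext
      change x = y
      rw [← h.up x (ha.trans hx), ← h.up y (ha.trans hy), h1]
    have h1 := Nat.card_le_card_of_injective g hg
    have h2 : Nat.card {y : Set.Iic m // y ≠ ⟨⊥, bot_le⟩} < Nat.card (Set.Iic m) := by
      classical
      have := Fintype.ofFinite (Set.Iic m)
      rw [Nat.card_eq_fintype_card, Nat.card_eq_fintype_card]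
      exact Fintype.card_subtype_lt (x := ⟨⊥, bot_le⟩) (by simp)
    omega
  have := h.card
  omega

omit [BoundedOrder L] [Finite L] in
lemma supIrred_val {m : L} {j : Set.Iic m} (hj : SupIrred j) : SupIrred (j : L) := by
  refine ⟨?_, ?_⟩
  · intro hm
    apply hj.1
    intro b hb
    exact hm (show (b : L) ≤ j from hb)
  · intro b c hbc
    have hb : b ≤ m := le_sup_left.trans (hbc.le.trans j.2)
    have hc : c ≤ m := le_sup_right.trans (hbc.le.trans j.2)
    have h2 : ∀ b c : Set.Iic m, b ⊔ c = j → b = j ∨ c = j := fun b c h => hj.2 h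
    rcases h2 ⟨b, hb⟩ ⟨c, hc⟩ (Subtype.ext hbc) with h | h
    · exact Or.inl (congrArg Subtype.val h)
    · exact Or.inr (congrArg Subtype.val h)

omit [Finite L] in
lemma isAtom_val {m : L} {a : Set.Iic m} : IsAtom a ↔ IsAtom (a : L) := by
  constructor
  · intro h
    refine ⟨fun h' => h.1 (Subtype.ext h'), fun b hb => ?_⟩
    have := h.2 ⟨b, hb.le.trans a.2⟩ hb
    exact congrArg Subtype.val this
  · intro h
    refine ⟨fun h' => h.1 (congrArg Subtype.val h'), fun b hb => ?_⟩
    exact Subtype.ext (h.2 b hb)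

/-- transfer of the strict property through the product decomposition -/
lemma Decomp.strict (h : Decomp m f) (hK : StrictJ (Set.Iic m)) : StrictJ L := by
  rcases hK with ⟨j, hj, hlt⟩ | ⟨n, hn, hat, hb⟩
  · left
    refine ⟨j, supIrred_val hj, ?_⟩
    have h1 := h.card_up j.2
    simp only [Subtype.coe_eta] at h1
    rw [h1, h.card]
    omega
  · right
    refine ⟨n + 1, ?_, ?_, ?_⟩
    · rw [h.card, hn, pow_succ, mul_comm]
    · have hset : {a : L | IsAtom a} = insert f (Subtype.val '' {a : Set.Iic m | IsAtom a}) := by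
        ext a
        simp only [Set.mem_ofPred_eq, Set.mem_insert_iff, Set.mem_image]
        constructor
        · intro ha
          by_cases hfa : f ≤ a
          · left
            rcases ha.le_iff.mp hfa with h' | h'
            · exact absurd h' h.isAtom.1
            · exact h'.symm
          · right
            exact ⟨⟨a, h.cover a hfa⟩, isAtom_val.mpr ha, rfl⟩
        · rintro (rfl | ⟨a, ha, rfl⟩)
          · exact h.isAtom
          · exact isAtom_val.mp ha
      rw [hset, Set.ncard_insert_of_notMem, Set.ncard_image_of_injective _ Subtype.val_injective, hat]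
      rintro ⟨a, -, rfl⟩
      exact h.nle a.2
    · intro a ha hna
      by_cases hfa : f ≤ a
      · exact h.card_up' hfa (fun h' => hna (h' ▸ h.isAtom))
      · have ham := h.cover a hfa
        rw [h.card_up ham, h.card]
        have := hb ⟨a, ham⟩ (fun h' => ha (congrArg Subtype.val h')) (fun h' => hna (isAtom_val.mp h'))
        omega

end

end Pool.Agent.TH903.Semi
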