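import Pool.Agent.TH903.Semi.Lower

set_option autoImplicit false

namespace Pool.Agent.TH903.Semi

open Finset

section
variable {L : Type*} [Lattice L] [Finite L] [IsUpperModularLattice L]

/-- the exchange argument: if `x ↦ x ⊔ f` is injective on `{x | ¬ f ≤ x}` then it reflects order -/
lemma order_of_inj {f : L} (hfa : ∀ w w' : L, w < f → w ≤ w')
    (hinj : ∀ x y : L, ¬ f ≤ x → ¬ f ≤ y → x ⊔ f = y ⊔ f → x = y)
    {x₁ x₂ : L} (h1 : ¬ f ≤ x₁) (h2 : ¬ f ≤ x₂) (h12 : x₁ ≤ x₂ ⊔ f) : x₁ ≤ x₂ := by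
  by_contra hcon
  obtain ⟨q, -, hq1, hq2, hql⟩ := exists_irred hcon
  have hfq : ¬ f ≤ q := fun h => h1 (h.trans hq1)
  obtain ⟨v, ⟨hv2, hqv, hqvf⟩, hvmin⟩ := exists_min (L := L)
    (P := fun v => v ≤ x₂ ∧ (∀ w, w < q → w ≤ v) ∧ q ≤ v ⊔ f) ⟨x₂, le_rfl, hql, hq1.trans h12⟩
  have hfv : ¬ f ≤ v := fun h => h2 (h.trans hv2)
  have hqnv : ¬ q ≤ v := fun h => hq2 (h.trans hv2)
  have c1 : v ⋖ v ⊔ q := covBy_sup hqv hqnv
  have c2 : v ⋖ v ⊔ f := covBy_sup (fun w hw => hfa w v hw) hfv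
  have e1 : v ⊔ q = v ⊔ f := by
    rcases eq_or_lt_of_le (sup_le le_sup_left hqvf : v ⊔ q ≤ v ⊔ f) with h | h
    · exact h
    · exact absurd h (c2.2 c1.lt)
  have hvq : ¬ v ≤ q := by
    intro h
    apply hfq
    have : v ⊔ q = q := sup_eq_right.mpr h
    rw [← this, e1]
    exact le_sup_right
  have hlt : v ⊓ q < v := lt_of_le_of_ne inf_le_left (fun h => hvq (inf_eq_left.mp h))
  obtain ⟨v', ⟨hv'v, hv'q⟩, hmax⟩ := exists_max (L := L)
    (P := fun v' => v' < v ∧ ∀ w, w < q → w ≤ v') ⟨v ⊓ q, hlt, fun w hw => le_inf (hqv w hw) hw.le⟩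
  have hcov : v' ⋖ v := ⟨hv'v, fun w hw1 hw2 => hmax w hw1 ⟨hw2, fun u hu => (hv'q u hu).trans hw1.le⟩⟩
  have hfv' : ¬ f ≤ v' := fun h => hfv (h.trans hv'v.le)
  have hqv' : ¬ q ≤ v' ⊔ f := fun h => hvmin v' hv'v ⟨hv'v.le.trans hv2, hv'q, h⟩
  have hqnv' : ¬ q ≤ v' := fun h => hqnv (h.trans hv'v.le)
  have c3 : v' ⋖ v' ⊔ q := covBy_sup hv'q hqnv'
  have c4 : v' ⋖ v' ⊔ f := covBy_sup (fun w hw => hfa w v' hw) hfv'
  have hf3 : ¬ f ≤ v' ⊔ q := by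
    intro h
    rcases eq_or_lt_of_le (sup_le le_sup_left h : v' ⊔ f ≤ v' ⊔ q) with h' | h'
    · exact hqv' (h' ▸ le_sup_right)
    · exact c3.2 c4.lt h'
  -- `v' ⊔ f ⋖ v ⊔ f`
  have c5 : v' ⊔ f ⋖ v ⊔ f := by
    have hi : v ⊓ (v' ⊔ f) = v' := by
      have ha : v' ≤ v ⊓ (v' ⊔ f) := le_inf hv'v.le le_sup_left
      rcases eq_or_lt_of_le ha with h | h
      · exact h.symm
      · rcases eq_or_lt_of_le (inf_le_right : v ⊓ (v' ⊔ f) ≤ v' ⊔ f) with h' | h'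
        · exact absurd ((le_sup_right.trans h'.ge).trans inf_le_left) hfv
        · exact absurd h' (c4.2 h)
    have := covBy_sup_of_inf_covBy_left (hi.symm ▸ hcov : v ⊓ (v' ⊔ f) ⋖ v)
    have e : v ⊔ (v' ⊔ f) = v ⊔ f := by
      rw [← sup_assoc, sup_eq_left.mpr hv'v.le]
    rwa [e] at this
  have e2 : (v' ⊔ q) ⊔ f = v ⊔ f := by
    have hle : (v' ⊔ q) ⊔ f ≤ v ⊔ f :=
      sup_le (sup_le (hv'v.le.trans le_sup_left) hqvf) le_sup_right
    have hlt' : v' ⊔ f < (v' ⊔ q) ⊔ f := by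
      refine lt_of_le_of_ne (sup_le (le_sup_left.trans le_sup_left) le_sup_right) (fun h => hqv' ?_)
      rw [h]
      exact le_sup_right.trans le_sup_left
    rcases eq_or_lt_of_le hle with h | h
    · exact h
    · exact absurd h (c5.2 hlt')
  have := hinj (v' ⊔ q) v hf3 hfv e2
  exact hqnv (this ▸ le_sup_right)

omit [IsUpperModularLattice L] in
/-- if `x ↦ x ⊔ f` is onto `{y ≥ f}` and `f` is heavy then it is injective -/
lemma inj_of_heavy {f : L} (hsurj : ∀ y, f ≤ y → ∃ x, ¬ f ≤ x ∧ x ⊔ f = y)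
    (hh : Nat.card L ≤ 2 * Nat.card {x : L // f ≤ x}) :
    ∀ x y : L, ¬ f ≤ x → ¬ f ≤ y → x ⊔ f = y ⊔ f → x = y := by
  classical
  have := Fintype.ofFinite L
  have hcard : (univ.filter (fun x : L => ¬ f ≤ x)).card ≤ (univ.filter (fun x : L => f ≤ x)).card := by
    have h2 : Nat.card {x : L // f ≤ x} = (univ.filter (fun x => f ≤ x)).card := by
      rw [Nat.card_eq_fintype_card, Fintype.card_subtype]
    have h3 : Nat.card L = (univ.filter (fun x : L => f ≤ x)).card + (univ.filter (fun x => ¬ f ≤ x)).card := by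
      rw [Nat.card_eq_fintype_card, ← Finset.card_univ, Finset.card_filter_add_card_filter_not]
    omega
  have hinj := Finset.inj_on_of_surj_on_of_card_le (s := univ.filter (fun x : L => ¬ f ≤ x))
    (t := univ.filter (fun x : L => f ≤ x)) (fun x _ => x ⊔ f)
    (fun x _ => by simp)
    (fun y hy => by
      simp only [mem_filter, mem_univ, true_and] at hy
      obtain ⟨x, hx, hxy⟩ := hsurj y hy
      exact ⟨x, by simp [hx], hxy⟩) hcard
  intro x y hx hy hxy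
  exact hinj (by simp [hx]) (by simp [hy]) hxy

lemma surj_single {c f : L} (hfc : ¬ f ≤ c)
    (hc : ∀ g, SupIrred g → ¬ g ≤ f → ∀ w, w < g → w ≤ c) :
    ∀ y, f ≤ y → ∃ x, ¬ f ≤ x ∧ x ⊔ f = y := by
  intro y hy
  obtain ⟨x, -, hx1, -, hx2⟩ := core (t := y ⊓ c) (y := y) (f := f) inf_le_left hy
    (fun h => hfc (h.trans inf_le_right)) (by
    intro z hDz h1z hzy
    obtain ⟨q, hq, hqy, hqz, -⟩ := exists_irred (not_le_of_gt hzy)
    exact ⟨q, hqy, hqz, fun w hw =>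
      le_inf (hw.le.trans hqy) (hc q hq (fun h => hqz (h.trans h1z)) w hw)⟩)
  exact ⟨x, hx1, hx2⟩

end

section
variable {L : Type*} [Lattice L] [BoundedOrder L] [Finite L] [IsUpperModularLattice L]

/-- equality case for one exceptional element: product decomposition -/
lemma decomp_of_heavy {f : L} (hf0 : f ≠ ⊥) (hsurj : ∀ y, f ≤ y → ∃ x, ¬ f ≤ x ∧ x ⊔ f = y)
    (hh : Nat.card L ≤ 2 * Nat.card {x : L // f ≤ x}) :
    (∀ w, w < f → w = ⊥) ∧ ∃ m, Decomp m f := by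
  have hinj := inj_of_heavy hsurj hh
  have hat : ∀ w, w < f → w = ⊥ := by
    intro w hw
    refine hinj w ⊥ (not_le_of_gt hw) (fun h => hf0 (le_bot_iff.mp h)) ?_
    rw [bot_sup_eq, sup_eq_right.mpr hw.le]
  refine ⟨hat, ?_⟩
  have hord : ∀ x₁ x₂ : L, ¬ f ≤ x₁ → ¬ f ≤ x₂ → x₁ ≤ x₂ ⊔ f → x₁ ≤ x₂ := fun x₁ x₂ a b c =>
    order_of_inj (fun w w' hw => (hat w hw) ▸ bot_le) hinj a b c
  obtain ⟨m, hm1, hm2⟩ := hsurj ⊤ le_top
  have hcov : ∀ x, ¬ f ≤ x → x ≤ m := fun x hx => hord x m hx hm1 (hm2 ▸ le_top)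
  refine ⟨m, hm1, hcov, ?_, ?_⟩
  · intro y hy
    have hfy : ¬ f ≤ y := fun h => hm1 (h.trans hy)
    refine le_antisymm (hord _ _ (fun h => hm1 (h.trans inf_le_right)) hfy inf_le_left) (le_inf le_sup_left hy)
  · intro x hx
    obtain ⟨x', hx'1, hx'2⟩ := hsurj x hx
    refine le_antisymm (sup_le inf_le_left hx) ?_
    rw [← hx'2]
    exact sup_le_sup_right (le_inf le_sup_left (hcov x' hx'1)) f

end

end Pool.Agent.TH903.Semi
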